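import Pool.Agent.H41.PS.Data

set_option autoImplicit false

/-! A kernel-friendly check that `f` is affine on no 5-dimensional flat. -/

namespace Pool.Agent.H41.PS

/-- forces the evaluation of a natural number argument -/
noncomputable def fc {α : Type} (f : ℕ → α) (n : ℕ) : α :=
  Nat.rec (f 0) (fun a _ => f (Nat.succ a)) n

theorem fc_eq {α : Type} (f : ℕ → α) (n : ℕ) : fc f n = f n := by
  cases n <;> rfl

/-- list of pairs (mask, shift) -/
inductive ML where
  | nil : ML
  | cons (m s : ℕ) (t : ML) : ML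

/-- all bits, from bit 7 to bit 0 -/
def ml : ML := .cons M7 (nat_lit 128) <| .cons M6 (nat_lit 64) <| .cons M5 (nat_lit 32) <|
  .cons M4 (nat_lit 16) <| .cons M3 (nat_lit 8) <| .cons M2 (nat_lit 4) <|
  .cons M1 (nat_lit 2) <| .cons M0 (nat_lit 1) .nil

/-- swaps the blocks of length `s` (`m` is the mask of the lower blocks) -/
noncomputable def sw (m s X : ℕ) : ℕ :=
  Nat.lor (Nat.shiftLeft (Nat.land X m) s) (Nat.land (Nat.shiftRight X s) m)

/-- translation of the set `X` by `u` -/
noncomputable def trn (u : ℕ) (l : ML) : ℕ → ℕ :=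
  ML.rec (motive := fun _ => ℕ → ℕ) (fun X => X)
    (fun m s _ ih X => Bool.rec (fc ih (sw m s X)) (ih X) (Nat.beq (Nat.land u s) 0)) l

/-- one step: from the lanes of `X` and of its translate `Z` -/
noncomputable def st (N X Z : ℕ) : ℕ :=
  Nat.lor F4 (Nat.shiftLeft
    (Nat.land (Nat.shiftRight (Nat.land X Z) 4096) (Nat.xor (Nat.xor X Z) N)) 4096)

/-- removes the lowest element of each lane -/
noncomputable def rl (R : ℕ) : ℕ := Nat.land R (Nat.sub (Nat.lor R G) L)

/-- the key of a pair: the sum and the sum of the values of `f` -/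
noncomputable def key (p q : ℕ) : ℕ :=
  Nat.xor (Nat.xor p q) (Nat.shiftLeft
    (Nat.xor (Nat.land (Nat.shiftRight F p) 1) (Nat.land (Nat.shiftRight F q) 1)) 10)

/-- the keys of the pairs `(p, q)`, `q` in the list, are different and not in `S`; continue
with `K` -/
noncomputable def inner (p : ℕ) (K : ℕ → Bool) (l : List ℕ) : ℕ → Bool :=
  List.rec (motive := fun _ => ℕ → Bool) K
    (fun q _ ih S => fc (fun k => Bool.rec false
      (fc ih (Nat.lor S (Nat.shiftLeft 1 k)))
      (Nat.beq (Nat.land (Nat.shiftRight S k) 1) 0)) (key p q)) l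

/-- the keys of all pairs are different -/
noncomputable def outer (l : List ℕ) : ℕ → Bool :=
  List.rec (motive := fun _ => ℕ → Bool) (fun _ => true)
    (fun p t ih S => inner p ih t S) l

/-- `i` for `b = 2 ^ i`, `i < 1024` -/
noncomputable def pos (b : ℕ) : ℕ :=
  Nat.land (Nat.shiftRight TP (Nat.mul 10 (Nat.mod b 1061))) 1023

/-- the elements of the set `Q` are put in front of the list `l`, then `outer` -/
noncomputable def ext (fuel : ℕ) : ℕ → List ℕ → Bool :=
  Nat.rec (motive := fun _ => ℕ → List ℕ → Bool) (fun _ _ => false)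
    (fun _ ih Q l => Bool.rec
      (fc (fun Q' => fc (fun p => ih Q' (List.cons p l)) (pos (Nat.xor Q Q')))
        (Nat.land Q (Nat.sub Q 1))) (outer l 0)
      (Nat.beq Q 0)) fuel

/-- test of one lane: the pairs in the lane have different keys -/
noncomputable def lane (R c i : ℕ) : Bool :=
  Bool.rec (fc (fun Q => ext 1024 Q [])
      (Nat.mod (Nat.shiftRight R (Nat.mul 1024 i)) (Nat.shiftLeft 1 1024)))
    true (Nat.beq (Nat.mod (Nat.shiftRight c (Nat.mul 1024 i)) (Nat.shiftLeft 1 1024)) 0)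

/-- test of the lanes 4, ..., n + 3 in which `c` has an element -/
noncomputable def slow (R c : ℕ) (n : ℕ) : Bool :=
  Nat.rec true (fun i ih => Bool.rec false ih (lane R c (Nat.add i 4))) n

/-- no lane has four elements, or the slow test -/
noncomputable def lt (R : ℕ) : Bool :=
  fc (fun R => fc (fun c => Bool.rec (slow R c 4) true (Nat.beq (Nat.shiftRight c 4096) 0))
    (fc rl (fc rl (rl R)))) R

/-- test at a three-dimensional subspace -/
noncomputable def leaf (X Z : ℕ) : Bool :=
  fc (fun A => Bool.rec false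
    (lt (Nat.land A (Nat.xor (Nat.shiftLeft (Nat.xor X Z) 4096) ALL)))
    (lt (Nat.land A (Nat.lor (Nat.shiftLeft (Nat.xor X Z) 4096) LOW)))) (Nat.land X Z)

/-- all `u₃ = p + (combination of the bits of the list)` -/
noncomputable def tree (X : ℕ) (l : ML) : ℕ → Bool :=
  ML.rec (motive := fun _ => ℕ → Bool) (fun Z => leaf X Z)
    (fun m s _ ih Z => Bool.rec false (fc ih (sw m s Z)) (ih Z)) l

/-- omit two bits -/
noncomputable def flt (s1 s2 : ℕ) (l : ML) : ML :=
  ML.rec .nil (fun m s _ ih => Bool.rec (Bool.rec (ML.cons m s ih) ih (Nat.beq s s2)) ih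
    (Nat.beq s s1)) l

/-- the mask of the bit with value `s1` -/
noncomputable def getM (s1 : ℕ) (l : ML) : ℕ :=
  ML.rec 0 (fun m s _ ih => Bool.rec ih m (Nat.beq s s1)) l

/-- all `u₃` above `u2` -/
noncomputable def top (s1 s2 X : ℕ) (l : ML) : Bool :=
  ML.rec true (fun m s t ih => Bool.rec
    (Bool.rec false ih
      (fc (fun Y => fc (fun Z => tree Y (flt s1 s2 t) Z) (Nat.land (sw m s X) m)) (Nat.land X m)))
    true (Nat.ble s s2)) l

/-- test of the pair `(u1, u2)` -/
noncomputable def pair (u1 u2 : ℕ) : Bool :=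
  fc (fun X1 => fc (fun X2 => fc (fun s1 => fc (fun s2 =>
    fc (fun X => top s1 s2 X ml) (Nat.land X2 (Nat.land (getM s1 ml) (getM s2 ml))))
    (Nat.shiftLeft 1 (Nat.log2 u2))) (Nat.shiftLeft 1 (Nat.log2 u1)))
    (fc (st N2 X1) (trn u2 ml X1))) (fc (st N1 X0) (trn u1 ml X0))

/-- all `u2 < n` above `u1` without the leading bit `s1` of `u1` -/
noncomputable def all2 (u1 s1 : ℕ) (n : ℕ) : Bool :=
  Nat.rec true (fun u2 ih => Bool.rec false ih
    (Bool.rec (Bool.rec true (pair u1 u2) (Nat.beq (Nat.land u2 s1) 0)) true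
      (Nat.ble u2 u1))) n

/-- all `u1` with `a ≤ u1 < a + n` -/
noncomputable def all1 (a : ℕ) (n : ℕ) : Bool :=
  Nat.rec true (fun i ih => Bool.rec false ih
    (fc (fun s1 => all2 (Nat.add a i) s1 128) (Nat.shiftLeft 1 (Nat.log2 (Nat.add a i))))) n

end Pool.Agent.H41.PS
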