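import Pool.Agent.H41.PS.Stm

/-!
# Reduced basis of a 5-dimensional subspace of 10-bit numbers (subtask GRP of MP_17ab9e_co)
-/

set_option autoImplicit false

namespace Pool.Agent.H41.PS

namespace GRPaux

/-- counting: fibres of a homomorphism on a set closed under `^^^` -/
theorem card_fib {T : Type} [DecidableEq T] (H : Finset ℕ)
    (hx : ∀ x ∈ H, ∀ y ∈ H, x ^^^ y ∈ H) (φ : ℕ → T) (t0 : T)
    (hφ : ∀ x ∈ H, ∀ y ∈ H, φ x = φ y → φ (x ^^^ y) = t0) :
    H.card ≤ (H.filter fun x => φ x = t0).card * (H.image φ).card := by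
  apply Finset.card_le_mul_card_image
  intro b hb
  obtain ⟨y, hy, rfl⟩ := Finset.mem_image.mp hb
  apply Finset.card_le_card_of_injOn (fun x => x ^^^ y)
  · intro x hx'
    simp only [Finset.coe_filter, Set.mem_ofPred_eq] at hx' ⊢
    exact ⟨hx x hx'.1 y hy, hφ x hx'.1 y hy hx'.2⟩
  · intro x _ x' _ h
    exact Nat.xor_left_injective h

theorem low (H : Finset ℕ) (h1 : ∀ x ∈ H, x < 1024) (hx : ∀ x ∈ H, ∀ y ∈ H, x ^^^ y ∈ H)
    (hc : H.card = 32) (j n : ℕ) (hn : 2 ^ j * n = 1024) :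
    32 ≤ (H.filter fun x => x < 2 ^ j).card * n := by
  have h := card_fib H hx (fun x => x >>> j) 0 (by
    intro x _ y _ hxy
    simp only [Nat.shiftRight_xor_distrib] at hxy ⊢
    rw [hxy, Nat.xor_self])
  have e1 : (H.filter fun x => x >>> j = 0) = H.filter fun x => x < 2 ^ j := by
    apply Finset.filter_congr
    intro x _
    rw [Nat.shiftRight_eq_div_pow, Nat.div_eq_zero_iff]
    have : 2 ^ j ≠ 0 := by positivity
    tauto
  have e2 : (H.image fun x => x >>> j).card ≤ n := by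
    rw [← Finset.card_range n]
    apply Finset.card_le_card
    intro t ht
    obtain ⟨x, hx', rfl⟩ := Finset.mem_image.mp ht
    rw [Finset.mem_range, Nat.shiftRight_eq_div_pow]
    apply Nat.div_lt_of_lt_mul
    rw [hn]
    exact h1 x hx'
  rw [e1] at h
  calc 32 = H.card := hc.symm
    _ ≤ _ := h
    _ ≤ _ := Nat.mul_le_mul_left _ e2

/-- a finset with more elements than a list has an element outside the list -/
theorem exists_out (S : Finset ℕ) (T : Finset ℕ) (h : T.card < S.card) : ∃ x ∈ S, x ∉ T := by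
  by_contra hc
  push Not at hc
  exact absurd (Finset.card_le_card hc) (by omega)

theorem xor_lt (u v : ℕ) (hu : u ≠ 0) (h : v.testBit (Nat.log2 u) = true) : v ^^^ u < v := by
  apply Nat.lt_of_testBit (Nat.log2 u) _ h
  · intro j hj
    rw [Nat.testBit_xor, Nat.testBit_lt_two_pow (x := u) (i := j) (by
      calc u < 2 ^ (Nat.log2 u + 1) := Nat.lt_log2_self
        _ ≤ 2 ^ j := Nat.pow_le_pow_right (by norm_num) hj)]
    simp
  · rw [Nat.testBit_xor, h, Nat.testBit_log2 hu]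
    rfl

theorem log2_lt (u v : ℕ) (_hu : u ≠ 0) (huv : u < v) (h : v.testBit (Nat.log2 u) = false) :
    u.testBit (Nat.log2 v) = false := by
  have h1 : Nat.log2 u ≤ Nat.log2 v := by
    rw [Nat.log2_eq_log_two, Nat.log2_eq_log_two]
    exact Nat.log_mono_right huv.le
  have h2 : Nat.log2 u ≠ Nat.log2 v := by
    intro e
    rw [e, Nat.testBit_log2 (by omega)] at h
    exact absurd h (by simp)
  apply Nat.testBit_lt_two_pow
  calc u < 2 ^ (Nat.log2 u + 1) := Nat.lt_log2_self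
    _ ≤ 2 ^ (Nat.log2 v) := Nat.pow_le_pow_right (by norm_num) (by omega)

end GRPaux

open GRPaux in
theorem t_GRP : S_GRP := by
  intro H hb h0 hx hc
  have L64 := low H hb hx hc 6 16 (by norm_num)
  have L128 := low H hb hx hc 7 8 (by norm_num)
  have L256 := low H hb hx hc 8 4 (by norm_num)
  -- first vector
  obtain ⟨a1, ha1, ha1'⟩ := exists_out (H.filter fun x => x < 2 ^ 6) {0} (by
    rw [Finset.card_singleton]; omega)
  have hne1 : (H.filter fun x => x ∉ ({0} : Finset ℕ)).Nonempty :=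
    ⟨a1, Finset.mem_filter.mpr ⟨(Finset.mem_filter.mp ha1).1, ha1'⟩⟩
  obtain ⟨u1, hu1, hmin1⟩ := Finset.exists_min_image _ id hne1
  have hu1H : u1 ∈ H := (Finset.mem_filter.mp hu1).1
  have hu10 : u1 ≠ 0 := by simpa using (Finset.mem_filter.mp hu1).2
  have hmin1' : ∀ x ∈ H, x ≠ 0 → u1 ≤ x := by
    intro x hxH hx0
    exact hmin1 x (Finset.mem_filter.mpr ⟨hxH, by simpa using hx0⟩)
  have hu164 : u1 < 64 := lt_of_le_of_lt (hmin1' a1 (Finset.mem_filter.mp ha1).1 (by simpa using ha1'))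
    (Finset.mem_filter.mp ha1).2
  -- second vector
  obtain ⟨a2, ha2, ha2'⟩ := exists_out (H.filter fun x => x < 2 ^ 7) {0, u1} (by
    have := Finset.card_le_two (a := 0) (b := u1); omega)
  have hne2 : (H.filter fun x => x ∉ ({0, u1} : Finset ℕ)).Nonempty :=
    ⟨a2, Finset.mem_filter.mpr ⟨(Finset.mem_filter.mp ha2).1, ha2'⟩⟩
  obtain ⟨u2, hu2, hmin2⟩ := Finset.exists_min_image _ id hne2
  have hu2H : u2 ∈ H := (Finset.mem_filter.mp hu2).1
  have hu2' : u2 ≠ 0 ∧ u2 ≠ u1 := by simpa using (Finset.mem_filter.mp hu2).2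
  have hmin2' : ∀ x ∈ H, x ≠ 0 → x ≠ u1 → u2 ≤ x := by
    intro x hxH hx0 hx1
    exact hmin2 x (Finset.mem_filter.mpr ⟨hxH, by simp [hx0, hx1]⟩)
  have ha2'' : a2 ≠ 0 ∧ a2 ≠ u1 := by simpa using ha2'
  have hu2128 : u2 < 128 := lt_of_le_of_lt (hmin2' a2 (Finset.mem_filter.mp ha2).1 ha2''.1 ha2''.2)
    (Finset.mem_filter.mp ha2).2
  have h12 : u1 < u2 := lt_of_le_of_ne (hmin1' u2 hu2H hu2'.1) (Ne.symm hu2'.2)
  have hxor0 : ∀ a b : ℕ, a ≠ b → a ^^^ b ≠ 0 := by
    intro a b hab h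
    exact hab (Nat.xor_eq_zero_iff.mp h)
  have hxor1 : ∀ a b : ℕ, a ≠ 0 → a ^^^ b ≠ b := by
    intro a b ha h
    apply ha
    have : a ^^^ b ^^^ b = b ^^^ b := by rw [h]
    simpa [Nat.xor_assoc] using this
  have hb21 : u2.testBit (Nat.log2 u1) = false := by
    by_contra hcon
    have hcon' : u2.testBit (Nat.log2 u1) = true := by simpa using hcon
    have h1 := xor_lt u1 u2 hu10 hcon'
    have h2 := hmin2' (u2 ^^^ u1) (hx _ hu2H _ hu1H) (hxor0 _ _ hu2'.2) (hxor1 _ _ hu2'.1)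
    omega
  -- third vector
  obtain ⟨a3, ha3, ha3'⟩ := exists_out (H.filter fun x => x < 2 ^ 8) {0, u1, u2, u1 ^^^ u2} (by
    have := Finset.card_le_four (a := 0) (b := u1) (c := u2) (d := u1 ^^^ u2); omega)
  have hne3 : (H.filter fun x => x ∉ ({0, u1, u2, u1 ^^^ u2} : Finset ℕ)).Nonempty :=
    ⟨a3, Finset.mem_filter.mpr ⟨(Finset.mem_filter.mp ha3).1, ha3'⟩⟩
  obtain ⟨u3, hu3, hmin3⟩ := Finset.exists_min_image _ id hne3
  have hu3H : u3 ∈ H := (Finset.mem_filter.mp hu3).1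
  have hu3' : u3 ≠ 0 ∧ u3 ≠ u1 ∧ u3 ≠ u2 ∧ u3 ≠ u1 ^^^ u2 := by
    simpa using (Finset.mem_filter.mp hu3).2
  have hmin3' : ∀ x ∈ H, x ≠ 0 → x ≠ u1 → x ≠ u2 → x ≠ u1 ^^^ u2 → u3 ≤ x := by
    intro x hxH hx0 hx1 hx2 hx3
    exact hmin3 x (Finset.mem_filter.mpr ⟨hxH, by simp [hx0, hx1, hx2, hx3]⟩)
  have ha3'' : a3 ≠ 0 ∧ a3 ≠ u1 ∧ a3 ≠ u2 ∧ a3 ≠ u1 ^^^ u2 := by simpa using ha3'
  have hu3256 : u3 < 256 := lt_of_le_of_lt (hmin3' a3 (Finset.mem_filter.mp ha3).1 ha3''.1 ha3''.2.1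
    ha3''.2.2.1 ha3''.2.2.2) (Finset.mem_filter.mp ha3).2
  have h23 : u2 < u3 := lt_of_le_of_ne (hmin2' u3 hu3H hu3'.1 hu3'.2.1) (Ne.symm hu3'.2.2.1)
  have hb31 : u3.testBit (Nat.log2 u1) = false := by
    by_contra hcon
    have hcon' : u3.testBit (Nat.log2 u1) = true := by simpa using hcon
    have h1 := xor_lt u1 u3 hu10 hcon'
    have h2 := hmin3' (u3 ^^^ u1) (hx _ hu3H _ hu1H) (hxor0 _ _ hu3'.2.1) (hxor1 _ _ hu3'.1) (by
      intro h
      apply hu3'.2.2.2
      rw [← h, ← Nat.xor_assoc, Nat.xor_comm u1 u3, Nat.xor_assoc, Nat.xor_self, Nat.xor_zero]) (by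
      intro h
      apply hu3'.2.2.1
      have : u3 ^^^ u1 ^^^ u1 = u1 ^^^ u2 ^^^ u1 := by rw [h]
      rwa [Nat.xor_assoc, Nat.xor_self, Nat.xor_zero, Nat.xor_comm u1 u2, Nat.xor_assoc,
        Nat.xor_self, Nat.xor_zero] at this)
    omega
  have hb32 : u3.testBit (Nat.log2 u2) = false := by
    by_contra hcon
    have hcon' : u3.testBit (Nat.log2 u2) = true := by simpa using hcon
    have h1 := xor_lt u2 u3 hu2'.1 hcon'
    have h2 := hmin3' (u3 ^^^ u2) (hx _ hu3H _ hu2H) (hxor0 _ _ hu3'.2.2.1) (by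
      intro h
      apply hu3'.2.2.2
      rw [← h, Nat.xor_assoc, Nat.xor_self, Nat.xor_zero]) (hxor1 _ _ hu3'.1) (by
      intro h
      apply hu3'.2.1
      have : u3 ^^^ u2 ^^^ u2 = u1 ^^^ u2 ^^^ u2 := by rw [h]
      rwa [Nat.xor_assoc, Nat.xor_self, Nat.xor_zero, Nat.xor_assoc,
        Nat.xor_self, Nat.xor_zero] at this)
    omega
  have hb12 := log2_lt u1 u2 hu10 h12 hb21
  have hb13 := log2_lt u1 u3 hu10 (h12.trans h23) hb31
  have hb23 := log2_lt u2 u3 hu2'.1 h23 hb32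
  have hb11 := Nat.testBit_log2 hu10
  have hb22 := Nat.testBit_log2 hu2'.1
  have hb33 := Nat.testBit_log2 hu3'.1
  refine ⟨u1, hu1H, u2, hu2H, u3, hu3H, Nat.pos_of_ne_zero hu10, hu164, h12, hu2128, h23, hu3256,
    hb21, hb31, hb32, ?_, ?_⟩
  · intro c _
    refine ⟨(if c.testBit (Nat.log2 u1) then u1 else 0) ^^^
      ((if c.testBit (Nat.log2 u2) then u2 else 0) ^^^
        (if c.testBit (Nat.log2 u3) then u3 else 0)), ?_, ?_, ?_, ?_⟩
    · refine hx _ ?_ _ (hx _ ?_ _ ?_)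
      · split_ifs <;> assumption
      · split_ifs <;> assumption
      · split_ifs <;> assumption
    · simp only [Nat.testBit_xor]
      rw [apply_ite (fun n : ℕ => n.testBit (Nat.log2 u1)),
        apply_ite (fun n : ℕ => n.testBit (Nat.log2 u1)),
        apply_ite (fun n : ℕ => n.testBit (Nat.log2 u1)), hb11, hb21, hb31]
      cases c.testBit (Nat.log2 u1) <;> simp
    · simp only [Nat.testBit_xor]
      rw [apply_ite (fun n : ℕ => n.testBit (Nat.log2 u2)),
        apply_ite (fun n : ℕ => n.testBit (Nat.log2 u2)),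
        apply_ite (fun n : ℕ => n.testBit (Nat.log2 u2)), hb12, hb22, hb32]
      cases c.testBit (Nat.log2 u2) <;> simp
    · simp only [Nat.testBit_xor]
      rw [apply_ite (fun n : ℕ => n.testBit (Nat.log2 u3)),
        apply_ite (fun n : ℕ => n.testBit (Nat.log2 u3)),
        apply_ite (fun n : ℕ => n.testBit (Nat.log2 u3)), hb13, hb23, hb33]
      cases c.testBit (Nat.log2 u3) <;> simp
  · have h := card_fib H hx (fun x => (x.testBit (Nat.log2 u1), x.testBit (Nat.log2 u2),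
      x.testBit (Nat.log2 u3))) (false, false, false) (by
        intro x _ y _ hxy
        simp only [Prod.mk.injEq] at hxy
        simp [Nat.testBit_xor, hxy.1, hxy.2.1, hxy.2.2])
    have h8 : (H.image (fun x => (x.testBit (Nat.log2 u1), x.testBit (Nat.log2 u2),
      x.testBit (Nat.log2 u3)))).card ≤ 8 := (Finset.card_le_univ _).trans (by decide)
    set S := H.filter fun x => (x.testBit (Nat.log2 u1), x.testBit (Nat.log2 u2),
      x.testBit (Nat.log2 u3)) = (false, false, false) with hS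
    have h4 : 4 ≤ S.card := by
      have := h.trans (Nat.mul_le_mul_left _ h8)
      omega
    obtain ⟨a, ha, ha'⟩ := exists_out S {0} (by rw [Finset.card_singleton]; omega)
    obtain ⟨b, hb, hb'⟩ := exists_out S {0, a} (by
      have := Finset.card_le_two (a := 0) (b := a); omega)
    have hb'' : b ≠ 0 ∧ b ≠ a := by simpa using hb'
    rw [hS, Finset.mem_filter] at ha hb
    simp only [Prod.mk.injEq] at ha hb
    refine ⟨a, ha.1, b, hb.1, by simpa using ha', hb''.1, Ne.symm hb''.2, ?_⟩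
    intro u hu
    simp only [Set.mem_insert_iff, Set.mem_singleton_iff] at hu
    rcases hu with rfl | rfl | rfl
    · exact ⟨ha.2.1, hb.2.1⟩
    · exact ⟨ha.2.2.1, hb.2.2.1⟩
    · exact ⟨ha.2.2.2, hb.2.2.2⟩

end Pool.Agent.H41.PS
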