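import Pool.Agent.H41.PS.Chk

set_option autoImplicit false
set_option maxRecDepth 100000

/-! The evaluation of the check by the kernel, part 1. -/

namespace Pool.Agent.H41.PS

theorem r1 : all1 1 1 = true := by decide +kernel
theorem r2 : all1 2 1 = true := by decide +kernel
theorem r3 : all1 3 1 = true := by decide +kernel
theorem r4 : all1 4 1 = true := by decide +kernel
theorem r5 : all1 5 1 = true := by decide +kernel
theorem r6 : all1 6 1 = true := by decide +kernel

end Pool.Agent.H41.PS
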