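import Pool.Agent.H41.PS.Chk

set_option autoImplicit false
set_option maxRecDepth 100000

/-! The evaluation of the check by the kernel, part 2. -/

namespace Pool.Agent.H41.PS

theorem r7 : all1 7 1 = true := by decide +kernel
theorem r8 : all1 8 1 = true := by decide +kernel
theorem r9 : all1 9 1 = true := by decide +kernel
theorem r10 : all1 10 1 = true := by decide +kernel
theorem r11 : all1 11 1 = true := by decide +kernel
theorem r12 : all1 12 1 = true := by decide +kernel
theorem r13 : all1 13 1 = true := by decide +kernel
theorem r14 : all1 14 1 = true := by decide +kernel
theorem r15 : all1 15 1 = true := by decide +kernel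
theorem r16 : all1 16 1 = true := by decide +kernel

end Pool.Agent.H41.PS
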