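import Pool.Agent.H41.PS.Chk

set_option autoImplicit false
set_option maxRecDepth 100000

/-! The evaluation of the check by the kernel, part 3. -/

namespace Pool.Agent.H41.PS

theorem r17 : all1 17 1 = true := by decide +kernel
theorem r18 : all1 18 1 = true := by decide +kernel
theorem r19 : all1 19 1 = true := by decide +kernel
theorem r20 : all1 20 1 = true := by decide +kernel
theorem r21 : all1 21 1 = true := by decide +kernel
theorem r22 : all1 22 1 = true := by decide +kernel
theorem r23 : all1 23 1 = true := by decide +kernel
theorem r24 : all1 24 1 = true := by decide +kernel
theorem r25 : all1 25 1 = true := by decide +kernel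
theorem r26 : all1 26 1 = true := by decide +kernel
theorem r27 : all1 27 1 = true := by decide +kernel
theorem r28 : all1 28 1 = true := by decide +kernel
theorem r29 : all1 29 1 = true := by decide +kernel
theorem r30 : all1 30 1 = true := by decide +kernel
theorem r31 : all1 31 1 = true := by decide +kernel
theorem r32 : all1 32 1 = true := by decide +kernel
theorem r33 : all1 33 1 = true := by decide +kernel
theorem r34 : all1 34 1 = true := by decide +kernel
theorem r35 : all1 35 1 = true := by decide +kernel

end Pool.Agent.H41.PS
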