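import Pool.Agent.H41.PS.Chk

set_option autoImplicit false
set_option maxRecDepth 100000

/-! The evaluation of the check by the kernel, part 4. -/

namespace Pool.Agent.H41.PS

theorem r36 : all1 36 1 = true := by decide +kernel
theorem r37 : all1 37 1 = true := by decide +kernel
theorem r38 : all1 38 1 = true := by decide +kernel
theorem r39 : all1 39 1 = true := by decide +kernel
theorem r40 : all1 40 1 = true := by decide +kernel
theorem r41 : all1 41 1 = true := by decide +kernel
theorem r42 : all1 42 1 = true := by decide +kernel
theorem r43 : all1 43 1 = true := by decide +kernel
theorem r44 : all1 44 1 = true := by decide +kernel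
theorem r45 : all1 45 1 = true := by decide +kernel
theorem r46 : all1 46 1 = true := by decide +kernel
theorem r47 : all1 47 1 = true := by decide +kernel
theorem r48 : all1 48 1 = true := by decide +kernel
theorem r49 : all1 49 1 = true := by decide +kernel
theorem r50 : all1 50 1 = true := by decide +kernel
theorem r51 : all1 51 1 = true := by decide +kernel
theorem r52 : all1 52 1 = true := by decide +kernel
theorem r53 : all1 53 1 = true := by decide +kernel
theorem r54 : all1 54 1 = true := by decide +kernel
theorem r55 : all1 55 1 = true := by decide +kernel
theorem r56 : all1 56 1 = true := by decide +kernel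
theorem r57 : all1 57 1 = true := by decide +kernel
theorem r58 : all1 58 1 = true := by decide +kernel
theorem r59 : all1 59 1 = true := by decide +kernel
theorem r60 : all1 60 1 = true := by decide +kernel
theorem r61 : all1 61 1 = true := by decide +kernel
theorem r62 : all1 62 1 = true := by decide +kernel
theorem r63 : all1 63 1 = true := by decide +kernel

end Pool.Agent.H41.PS
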