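import Pool.Agent.H41.PS.Stm
import Pool.Agent.H41.PS.Run1
import Pool.Agent.H41.PS.Run2
import Pool.Agent.H41.PS.Run3
import Pool.Agent.H41.PS.Run4

set_option autoImplicit false

/-! Assembly: the function `f` is affine on no flat of dimension 5. -/

namespace Pool.Agent.H41.PS

theorem brec {a b : Bool} (h : (Bool.rec false b a : Bool) = true) : a = true ∧ b = true := by
  cases a
  · exact absurd h Bool.false_ne_true
  · exact ⟨rfl, h⟩

theorem all2_pair (u1 s1 n : ℕ) (h : all2 u1 s1 n = true) (u2 : ℕ) (h1 : u1 < u2) (h2 : u2 < n)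
    (h3 : Nat.land u2 s1 = 0) : pair u1 u2 = true := by
  induction n with
  | zero => omega
  | succ n ih =>
    have h' : (Bool.rec false (all2 u1 s1 n) (Bool.rec (Bool.rec true (pair u1 n)
      (Nat.beq (Nat.land n s1) 0)) true (Nat.ble n u1) : Bool) : Bool) = true := h
    obtain ⟨ha, hb⟩ := brec h'
    rcases Nat.lt_succ_iff_lt_or_eq.mp h2 with h4 | h4
    · exact ih hb h4
    · subst h4
      have e1 : Nat.ble u2 u1 = false := by
        rw [← Bool.not_eq_true, Nat.ble_eq]; omega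
      have e2 : Nat.beq (Nat.land u2 s1) 0 = true := by rw [h3]; rfl
      rw [e1, e2] at ha
      exact ha

theorem all1_pair (u1 : ℕ) (h : all1 u1 1 = true) (u2 : ℕ) (h1 : u1 < u2) (h2 : u2 < 128)
    (h3 : u2.testBit (Nat.log2 u1) = false) : pair u1 u2 = true := by
  have h' : (Bool.rec false true (fc (fun s1 => all2 (Nat.add u1 0) s1 128)
    (Nat.shiftLeft 1 (Nat.log2 (Nat.add u1 0))) : Bool) : Bool) = true := h
  have h0 := (brec h').1
  rw [fc_eq] at h0
  refine all2_pair u1 _ 128 h0 u2 h1 h2 ?_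
  show u2 &&& (1 <<< Nat.log2 u1) = 0
  rw [Nat.one_shiftLeft, Nat.and_two_pow, h3]
  simp

theorem runs (u1 : ℕ) (h0 : 0 < u1) (h1 : u1 < 64) : all1 u1 1 = true := by
  interval_cases u1
  · exact r1
  · exact r2
  · exact r3
  · exact r4
  · exact r5
  · exact r6
  · exact r7
  · exact r8
  · exact r9
  · exact r10
  · exact r11
  · exact r12
  · exact r13
  · exact r14
  · exact r15
  · exact r16
  · exact r17
  · exact r18
  · exact r19
  · exact r20
  · exact r21
  · exact r22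
  · exact r23
  · exact r24
  · exact r25
  · exact r26
  · exact r27
  · exact r28
  · exact r29
  · exact r30
  · exact r31
  · exact r32
  · exact r33
  · exact r34
  · exact r35
  · exact r36
  · exact r37
  · exact r38
  · exact r39
  · exact r40
  · exact r41
  · exact r42
  · exact r43
  · exact r44
  · exact r45
  · exact r46
  · exact r47
  · exact r48
  · exact r49
  · exact r50
  · exact r51
  · exact r52
  · exact r53
  · exact r54
  · exact r55
  · exact r56
  · exact r57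
  · exact r58
  · exact r59
  · exact r60
  · exact r61
  · exact r62
  · exact r63

theorem tb_add (q x j : ℕ) (hx : x < 1024) (hj : j < 10) :
    (1024 * q + x).testBit j = x.testBit j := by
  have h := Nat.testBit_two_pow_mul_add q (show x < 2 ^ 10 from hx) j
  rw [if_pos hj] at h
  exact h

theorem xor_add (q x u : ℕ) (hx : x < 1024) (hu : u < 1024) :
    (1024 * q + x) ^^^ u = 1024 * q + (x ^^^ u) := by
  have hxu : x ^^^ u < 2 ^ 10 := Nat.xor_lt_two_pow (n := 10) hx hu
  apply Nat.eq_of_testBit_eq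
  intro j
  rw [Nat.testBit_xor]
  have h1 := Nat.testBit_two_pow_mul_add q (show x < 2 ^ 10 from hx) j
  have h2 := Nat.testBit_two_pow_mul_add q hxu j
  rw [show (2 : ℕ) ^ 10 = 1024 from rfl] at h1 h2
  rw [h1, h2]
  split_ifs with h
  · rw [Nat.testBit_xor]
  · rw [Nat.testBit_lt_two_pow (x := u) (i := j)]
    · simp
    · exact lt_of_lt_of_le hu (by
        calc (1024 : ℕ) = 2 ^ 10 := rfl
          _ ≤ 2 ^ j := Nat.pow_le_pow_right (by norm_num) (by omega))

theorem no_flat (hpair : S_PAIR) (henum : S_ENUM) (hleaf : S_LEAF) (hgrp : S_GRP) (hlin : S_LIN)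
    (c a : Fin 10 → ZMod 2) (b : ZMod 2) (U : Submodule (ZMod 2) (Fin 10 → ZMod 2))
    (hU : Module.finrank (ZMod 2) U = 5) :
    ¬ ∀ u ∈ U, ff (c + u) = ∑ i, a i * (c + u) i + b := by
  intro hf
  obtain ⟨H, g, c0, hc0, hH, h0, hx, hcard, haff⟩ := hlin c a b U hU hf
  obtain ⟨u1, hu1, u2, hu2, u3, hu3, p1, p2, p3, p4, p5, p6, q1, q2, q3, hrep, A, hA, B, hB, hA0,
    hB0, hAB, hbits⟩ := hgrp H hH h0 (fun x hx' y hy => (hx x hx' y hy).1) hcard
  obtain ⟨h, hh, z1, z2, z3⟩ := hrep c0 hc0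
  obtain ⟨X, Z, hX, hZ, hl, hXZ⟩ := henum u1 u2 u3 p1 p2 p3 p4 p5 p6 q1 q2 q3
    (all1_pair u1 (runs u1 p1 p2) u2 p3 p4 q1)
  obtain ⟨-, hlow, hhigh⟩ := hpair u1 u2 (by omega) (by omega)
  have hlog : ∀ u, u < 256 → Nat.log2 u < 10 := by
    intro u hu
    rcases Nat.eq_zero_or_pos u with h | h
    · subst h; simp
    · have := (Nat.log2_lt (by omega : u ≠ 0) (k := 10)).2 (by omega)
      exact this
  -- the points of the coset, without pivot bits
  have hcl : ∀ x ∈ H, ∀ y ∈ H, x ^^^ y ∈ H := fun x hx' y hy => (hx x hx' y hy).1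
  have key : ∀ k ∈ H, (c0 ^^^ k).testBit (Nat.log2 u1) = false →
      (c0 ^^^ k).testBit (Nat.log2 u2) = false → (c0 ^^^ k).testBit (Nat.log2 u3) = false →
      X.testBit (4096 + 1024 * ((g u1).toNat + 2 * (g u2).toNat) + (c0 ^^^ k)) = true ∧
      Z.testBit (4096 + 1024 * ((g u1).toNat + 2 * (g u2).toNat) + (c0 ^^^ k)) = true ∧
      (X.testBit (1024 * ((g u1).toNat + 2 * (g u2).toNat) + (c0 ^^^ k)) ^^
        Z.testBit (1024 * ((g u1).toNat + 2 * (g u2).toNat) + (c0 ^^^ k))) = g u3 := by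
    intro k hk t1 t2 t3
    have hlt : ∀ k ∈ H, c0 ^^^ k < 1024 := fun k hk =>
      Nat.xor_lt_two_pow (n := 10) hc0 (hH k hk)
    have hl4 : (g u1).toNat + 2 * (g u2).toNat < 4 := by
      have e1 := Bool.toNat_lt (g u1)
      have e2 := Bool.toNat_lt (g u2)
      omega
    generalize hle : (g u1).toNat + 2 * (g u2).toNat = l at *
    have hk' := hlt k hk
    have hmem : ∀ k ∈ H, (XX u1 u2).testBit (4096 + 1024 * l + (c0 ^^^ k)) = true := by
      intro k hk
      rw [← hle]
      refine hhigh (g u1) (g u2) _ (hlt k hk) (haff k hk u1 hu1) (haff k hk u2 hu2) ?_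
      have e1 := haff k hk (u1 ^^^ u2) (hcl u1 hu1 u2 hu2)
      rw [← Nat.xor_assoc, (hx u1 hu1 u2 hu2).2] at e1
      rw [e1, Bool.xor_assoc]
    have hf1 : ∀ (q : ℕ), q < 8 → X.testBit (1024 * q + (c0 ^^^ k)) =
        (XX u1 u2).testBit (1024 * q + (c0 ^^^ k)) ∧
        Z.testBit (1024 * q + (c0 ^^^ k)) =
        (XX u1 u2).testBit (1024 * q + (c0 ^^^ (k ^^^ u3))) := by
      intro q hq
      have := hXZ (1024 * q + (c0 ^^^ k)) (by omega)
        (by rw [tb_add _ _ _ hk' (hlog u1 (by omega))]; exact t1)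
        (by rw [tb_add _ _ _ hk' (hlog u2 (by omega))]; exact t2)
        (by rw [tb_add _ _ _ hk' (hlog u3 (by omega))]; exact t3)
      rw [xor_add _ _ _ hk' (by omega : u3 < 1024), Nat.xor_assoc] at this
      exact this
    have hk3 : k ^^^ u3 ∈ H := hcl k hk u3 hu3
    refine ⟨?_, ?_, ?_⟩
    · rw [show 4096 + 1024 * l + (c0 ^^^ k) = 1024 * (4 + l) + (c0 ^^^ k) by ring,
        (hf1 (4 + l) (by omega)).1, show 1024 * (4 + l) + (c0 ^^^ k) =
          4096 + 1024 * l + (c0 ^^^ k) by ring]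
      exact hmem k hk
    · rw [show 4096 + 1024 * l + (c0 ^^^ k) = 1024 * (4 + l) + (c0 ^^^ k) by ring,
        (hf1 (4 + l) (by omega)).2, show 1024 * (4 + l) + (c0 ^^^ (k ^^^ u3)) =
          4096 + 1024 * l + (c0 ^^^ (k ^^^ u3)) by ring]
      exact hmem _ hk3
    · rw [(hf1 l (by omega)).1, (hf1 l (by omega)).2, hlow l hl4 _ hk', hlow l hl4 _ (hlt _ hk3),
        ← Nat.xor_assoc, haff k hk u3 hu3]
      cases F.testBit (c0 ^^^ k) <;> cases g u3 <;> rfl
  have hAb := fun u hu => (hbits u hu).1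
  have hBb := fun u hu => (hbits u hu).2
  have hlt : ∀ k ∈ H, c0 ^^^ k < 1024 := fun k hk => Nat.xor_lt_two_pow (n := 10) hc0 (hH k hk)
  have hhA := hcl h hh A hA
  have hhB := hcl h hh B hB
  have hhAB := hcl _ hhB A hA
  have hxc : ∀ x y z : ℕ, x ^^^ y = x ^^^ z → y = z := fun x y z hxyz => Nat.xor_right_injective hxyz
  have m1 : u1 ∈ ({u1, u2, u3} : Set ℕ) := by simp
  have m2 : u2 ∈ ({u1, u2, u3} : Set ℕ) := by simp
  have m3 : u3 ∈ ({u1, u2, u3} : Set ℕ) := by simp
  have k1 := key h hh z1 z2 z3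
  have k2 := key _ hhA
    (by rw [← Nat.xor_assoc, Nat.testBit_xor, z1, hAb u1 m1]; rfl)
    (by rw [← Nat.xor_assoc, Nat.testBit_xor, z2, hAb u2 m2]; rfl)
    (by rw [← Nat.xor_assoc, Nat.testBit_xor, z3, hAb u3 m3]; rfl)
  have k3 := key _ hhB
    (by rw [← Nat.xor_assoc, Nat.testBit_xor, z1, hBb u1 m1]; rfl)
    (by rw [← Nat.xor_assoc, Nat.testBit_xor, z2, hBb u2 m2]; rfl)
    (by rw [← Nat.xor_assoc, Nat.testBit_xor, z3, hBb u3 m3]; rfl)
  have k4 := key _ hhAB
    (by rw [← Nat.xor_assoc, ← Nat.xor_assoc, Nat.testBit_xor, Nat.testBit_xor, z1, hBb u1 m1,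
          hAb u1 m1]; rfl)
    (by rw [← Nat.xor_assoc, ← Nat.xor_assoc, Nat.testBit_xor, Nat.testBit_xor, z2, hBb u2 m2,
          hAb u2 m2]; rfl)
    (by rw [← Nat.xor_assoc, ← Nat.xor_assoc, Nat.testBit_xor, Nat.testBit_xor, z3, hBb u3 m3,
          hAb u3 m3]; rfl)
  have hl4 : (g u1).toNat + 2 * (g u2).toNat < 4 := by
    have e1 := Bool.toNat_lt (g u1)
    have e2 := Bool.toNat_lt (g u2)
    omega
  have hfin := hleaf X Z _ (g u3) (c0 ^^^ h) (c0 ^^^ (h ^^^ A)) (c0 ^^^ (h ^^^ B))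
    (c0 ^^^ (h ^^^ B ^^^ A)) hX hZ hl4 (hlt _ hh) (hlt _ hhA) (hlt _ hhB) (hlt _ hhAB)
    (fun e => hA0 (by
      have := hxc _ _ _ e
      have := hxc h 0 A (by rw [Nat.xor_zero]; exact this)
      exact this.symm))
    (fun e => hB0 (by
      have := hxc _ _ _ e
      have := hxc h 0 B (by rw [Nat.xor_zero]; exact this)
      exact this.symm))
    (fun e => hAB (by
      have := hxc _ _ _ e
      have := hxc h 0 (B ^^^ A) (by rw [Nat.xor_zero, ← Nat.xor_assoc]; exact this)
      have h2 := Nat.xor_eq_zero_iff.mp this.symm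
      exact h2.symm))
    (fun e => hAB (hxc h A B (hxc _ _ _ e)))
    (fun e => hB0 (by
      have := hxc _ _ _ e
      rw [Nat.xor_assoc] at this
      have := hxc h A (B ^^^ A) this
      have h2 : (0 : ℕ) ^^^ A = B ^^^ A := by rw [Nat.zero_xor]; exact this
      exact (Nat.xor_left_injective h2).symm))
    (fun e => hA0 (by
      have := hxc _ _ _ e
      have := hxc (h ^^^ B) 0 A (by rw [Nat.xor_zero]; exact this)
      exact this.symm))
    (by
      apply Nat.eq_of_testBit_eq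
      intro j
      simp only [Nat.testBit_xor]
      cases c0.testBit j <;> cases h.testBit j <;> cases A.testBit j <;> cases B.testBit j <;> rfl)
    (by
      have e1 := haff h hh A hA
      have e2 := haff _ hhB A hA
      rw [Nat.xor_assoc] at e1 e2
      rw [e1, e2]
      cases F.testBit (c0 ^^^ h) <;> cases F.testBit (c0 ^^^ (h ^^^ B)) <;> cases g A <;> rfl)
    (by
      intro x hx'
      simp only [Set.mem_insert_iff, Set.mem_singleton_iff] at hx'
      rcases hx' with rfl | rfl | rfl | rfl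
      · exact k1
      · exact k2
      · exact k3
      · exact k4)
  rw [hl] at hfin
  exact absurd hfin (by decide)

end Pool.Agent.H41.PS
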