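import Pool.Agent.H41.PS.Stm

set_option autoImplicit false

namespace Pool.Agent.H41.PS

theorem sub_bit_a (V p x j : ℕ) (hp : p ≤ x) (hx : x < j) (h : V.testBit x = true) :
    (V - 2 ^ p).testBit j = V.testBit j := by
  have h1 : 2 ^ p ≤ V % 2 ^ j := by
    have h2 : (V % 2 ^ j).testBit x = true := by
      rw [Nat.testBit_mod_two_pow, h]; simp [hx]
    have h3 := Nat.ge_two_pow_of_testBit h2
    exact le_trans (Nat.pow_le_pow_right (by norm_num) hp) h3
  have h2 : V - 2 ^ p = 2 ^ j * (V / 2 ^ j) + (V % 2 ^ j - 2 ^ p) := by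
    have := Nat.div_add_mod V (2 ^ j)
    omega
  have h3 : V % 2 ^ j < 2 ^ j := Nat.mod_lt _ (by positivity)
  rw [Nat.testBit_eq_decide_div_mod_eq, Nat.testBit_eq_decide_div_mod_eq, h2,
    Nat.mul_add_div (by positivity), Nat.div_eq_of_lt (lt_of_le_of_lt (Nat.sub_le _ _) h3),
    Nat.add_zero]

theorem sub_bit_b (V p q j : ℕ) (hp : p ≤ q) (hj : j < p) (h : V.testBit q = true) :
    (V - 2 ^ p).testBit j = V.testBit j := by
  have h1 : 2 ^ p ≤ V :=
    le_trans (Nat.pow_le_pow_right (by norm_num) hp) (Nat.ge_two_pow_of_testBit h)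
  have h2 : (V - 2 ^ p) % 2 ^ p = V % 2 ^ p := (Nat.mod_eq_sub_mod h1).symm
  have h3 : ∀ W : ℕ, (W % 2 ^ p).testBit j = W.testBit j := by
    intro W
    rw [Nat.testBit_mod_two_pow]; simp [hj]
  rw [← h3 (V - 2 ^ p), h2, h3]

theorem G_bit (l : ℕ) (h1 : 4 ≤ l) (h2 : l < 8) : G.testBit (1024 * l + 1023) = true := by
  interval_cases l <;> decide +kernel

theorem L_eq : L = 2 ^ (1024 * 4) + 2 ^ (1024 * 5) + 2 ^ (1024 * 6) + 2 ^ (1024 * 7) := by
  decide +kernel

theorem t_RL : S_RL := by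
  intro R hR
  constructor
  · exact lt_of_le_of_lt Nat.and_le_left hR
  · intro l x y hl4 hl8 hxy hy hx' hy'
    show (R &&& ((R ||| G) - L)).testBit (1024 * l + y) = true
    rw [Nat.testBit_and, hy', Bool.true_and]
    set V := R ||| G with hV
    have hVx : V.testBit (1024 * l + x) = true := by
      rw [hV, Nat.testBit_or, hx', Bool.true_or]
    have hVy : V.testBit (1024 * l + y) = true := by
      rw [hV, Nat.testBit_or, hy', Bool.true_or]
    have hVg : ∀ q, 4 ≤ q → q < 8 → V.testBit (1024 * q + 1023) = true := by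
      intro q h1 h2
      rw [hV, Nat.testBit_or, G_bit q h1 h2, Bool.or_true]
    clear_value V
    have e : V - L = V - 2 ^ (1024 * 7) - 2 ^ (1024 * 6) - 2 ^ (1024 * 5) - 2 ^ (1024 * 4) := by
      rw [L_eq]; omega
    rw [e]
    set V7 := V - 2 ^ (1024 * 7) with h7
    have b7 : ∀ j < 1024 * 7, V7.testBit j = V.testBit j := fun j hj =>
      sub_bit_b V _ _ j (by omega) hj (hVg 7 (by norm_num) (by norm_num))
    set V6 := V7 - 2 ^ (1024 * 6) with h6
    have g6 : V7.testBit (1024 * 6 + 1023) = true := by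
      rw [b7 _ (by norm_num)]; exact hVg 6 (by norm_num) (by norm_num)
    have b6 : ∀ j < 1024 * 6, V6.testBit j = V.testBit j := fun j hj => by
      rw [h6, sub_bit_b V7 _ _ j (by omega) hj g6, b7 j (by omega)]
    set V5 := V6 - 2 ^ (1024 * 5) with h5
    have g5 : V6.testBit (1024 * 5 + 1023) = true := by
      rw [b6 _ (by norm_num)]; exact hVg 5 (by norm_num) (by norm_num)
    have b5 : ∀ j < 1024 * 5, V5.testBit j = V.testBit j := fun j hj => by
      rw [h5, sub_bit_b V6 _ _ j (by omega) hj g5, b6 j (by omega)]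
    have g4 : V5.testBit (1024 * 4 + 1023) = true := by
      rw [b5 _ (by norm_num)]; exact hVg 4 (by norm_num) (by norm_num)
    interval_cases l
    · rw [sub_bit_a V5 _ (1024 * 4 + x) _ (by omega) (by omega)
        (by rw [b5 _ (by omega)]; exact hVx), b5 _ (by omega)]
      exact hVy
    · rw [sub_bit_a V5 _ (1024 * 4 + 1023) _ (by omega) (by omega) g4,
        h5, sub_bit_a V6 _ (1024 * 5 + x) _ (by omega) (by omega)
        (by rw [b6 _ (by omega)]; exact hVx), b6 _ (by omega)]
      exact hVy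
    · rw [sub_bit_a V5 _ (1024 * 4 + 1023) _ (by omega) (by omega) g4,
        h5, sub_bit_a V6 _ (1024 * 5 + 1023) _ (by omega) (by omega) g5,
        h6, sub_bit_a V7 _ (1024 * 6 + x) _ (by omega) (by omega)
        (by rw [b7 _ (by omega)]; exact hVx), b7 _ (by omega)]
      exact hVy
    · rw [sub_bit_a V5 _ (1024 * 4 + 1023) _ (by omega) (by omega) g4,
        h5, sub_bit_a V6 _ (1024 * 5 + 1023) _ (by omega) (by omega) g5,
        h6, sub_bit_a V7 _ (1024 * 6 + 1023) _ (by omega) (by omega) g6,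
        h7, sub_bit_a V _ (1024 * 7 + x) _ (by omega) (by omega) hVx]
      exact hVy

end Pool.Agent.H41.PS
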