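import Pool.Agent.H41.PS.Chk

set_option autoImplicit false

/-! Statements of the pieces of the soundness proof. `F.testBit x` is the value of the Boolean
function `f` of ten variables at the point `x < 1024`; `^^^` is the addition of points. All masks
have 8192 bits, that is 8 lanes of 1024 bits: the position `1024 * l + x` is the point `x` of the
lane `l`. -/

namespace Pool.Agent.H41.PS

/-- `m` is the mask of the positions in which the bit `j` of the position vanishes, `s = 2 ^ j` -/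
def MaskOK (m s : ℕ) : Prop :=
  ∃ j < 8, s = 2 ^ j ∧ m < 2 ^ 8192 ∧ ∀ i < 8192, m.testBit i = !i.testBit j

/-- all entries are correct -/
def MLOK : ML → Prop
  | .nil => True
  | .cons m s t => MaskOK m s ∧ MLOK t

/-- MASK: the masks of the list `ml` are correct. (E.g. `M_j * (2 ^ 2 ^ j + 1) = 2 ^ 8192 - 1`, or
a kernel computation that runs through all 8 * 8192 positions.) -/
def S_MASK : Prop := MLOK ml

/-- SW: `sw` is the translation by the bit `s`. -/
def S_SW : Prop := ∀ m s X : ℕ, MaskOK m s → X < 2 ^ 8192 →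
  sw m s X < 2 ^ 8192 ∧ ∀ i < 8192, (sw m s X).testBit i = X.testBit (i ^^^ s)

/-- TRN: `trn u ml` is the translation by `u`. -/
def S_TRN : Prop := ∀ u X : ℕ, u < 256 → X < 2 ^ 8192 →
  trn u ml X < 2 ^ 8192 ∧ ∀ i < 8192, (trn u ml X).testBit i = X.testBit (i ^^^ u)

/-- the set of `pair` for `u1`, `u2`, before the restriction to representatives -/
noncomputable def XX (u1 u2 : ℕ) : ℕ :=
  st N2 (st N1 X0 (trn u1 ml X0)) (trn u2 ml (st N1 X0 (trn u1 ml X0)))

/-- PAIR: the lanes 0, ..., 3 of `XX u1 u2` are copies of `f`; the lane `4 + l1 + 2 * l2` contains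
the points `x` for which `f` is affine on `x + ⟨u1, u2⟩` with slopes `l1`, `l2`. -/
def S_PAIR : Prop := ∀ u1 u2 : ℕ, u1 < 256 → u2 < 256 →
  XX u1 u2 < 2 ^ 8192 ∧
  (∀ l < 4, ∀ x < 1024, (XX u1 u2).testBit (1024 * l + x) = F.testBit x) ∧
  ∀ (l1 l2 : Bool) (x : ℕ), x < 1024 → F.testBit (x ^^^ u1) = (F.testBit x ^^ l1) →
    F.testBit (x ^^^ u2) = (F.testBit x ^^ l2) →
    F.testBit (x ^^^ u1 ^^^ u2) = (F.testBit x ^^ l1 ^^ l2) →
    (XX u1 u2).testBit (4096 + 1024 * (l1.toNat + 2 * l2.toNat) + x) = true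

/-- ENUM: if the test of the pair `(u1, u2)` is passed, then the test `leaf` is passed for every
third basis vector `u3`. -/
def S_ENUM : Prop := ∀ u1 u2 u3 : ℕ, 0 < u1 → u1 < 64 → u1 < u2 → u2 < 128 → u2 < u3 → u3 < 256 →
  u2.testBit (Nat.log2 u1) = false → u3.testBit (Nat.log2 u1) = false →
  u3.testBit (Nat.log2 u2) = false → pair u1 u2 = true →
  ∃ X Z : ℕ, X < 2 ^ 8192 ∧ Z < 2 ^ 8192 ∧ leaf X Z = true ∧
    ∀ i < 8192, i.testBit (Nat.log2 u1) = false → i.testBit (Nat.log2 u2) = false →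
      i.testBit (Nat.log2 u3) = false →
      X.testBit i = (XX u1 u2).testBit i ∧ Z.testBit i = (XX u1 u2).testBit (i ^^^ u3)

/-- RL: in each of the lanes 4, ..., 7 the function `rl` keeps every element that is not the
lowest one of its lane. -/
def S_RL : Prop := ∀ R : ℕ, R < 2 ^ 8192 → rl R < 2 ^ 8192 ∧
  ∀ l x y : ℕ, 4 ≤ l → l < 8 → x < y → y < 1024 → R.testBit (1024 * l + x) = true →
    R.testBit (1024 * l + y) = true → (rl R).testBit (1024 * l + y) = true

/-- EXT: four different points `a, b, c, d` of the set `Q` with `a + b = c + d` and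
`f a + f b = f c + f d` are detected. (`pos (2 ^ i) = i` for `i < 1024` by a kernel computation;
`Q &&& (Q - 1)` removes the lowest element; the keys of the pairs `{a, b}` and `{c, d}` agree.) -/
def S_EXT : Prop := ∀ (Q fuel : ℕ) (a b c d : ℕ), Q < 2 ^ 1024 → Q.testBit a = true →
  Q.testBit b = true → Q.testBit c = true → Q.testBit d = true → a ≠ b → a ≠ c → a ≠ d → b ≠ c →
  b ≠ d → c ≠ d → a ^^^ b = c ^^^ d →
  (F.testBit a ^^ F.testBit b) = (F.testBit c ^^ F.testBit d) → ext fuel Q [] = false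

/-- LT: the same for the lanes 4, ..., 7 of `R` and the function `lt`. -/
def S_LT : Prop := ∀ (R l : ℕ) (a b c d : ℕ), R < 2 ^ 8192 → 4 ≤ l → l < 8 → a < 1024 →
  b < 1024 → c < 1024 → d < 1024 → R.testBit (1024 * l + a) = true →
  R.testBit (1024 * l + b) = true → R.testBit (1024 * l + c) = true →
  R.testBit (1024 * l + d) = true → a ≠ b → a ≠ c → a ≠ d → b ≠ c →
  b ≠ d → c ≠ d → a ^^^ b = c ^^^ d →
  (F.testBit a ^^ F.testBit b) = (F.testBit c ^^ F.testBit d) → lt R = false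

/-- LEAF: the same for `leaf`: the four points are in the lane `4 + l` of `X` and of `Z`, and the
lanes `l` of `X` and `Z` differ at all four points, or agree at all four. -/
def S_LEAF : Prop := ∀ (X Z l : ℕ) (e : Bool) (a b c d : ℕ), X < 2 ^ 8192 → Z < 2 ^ 8192 → l < 4 →
  a < 1024 → b < 1024 → c < 1024 → d < 1024 → a ≠ b → a ≠ c → a ≠ d → b ≠ c →
  b ≠ d → c ≠ d → a ^^^ b = c ^^^ d →
  (F.testBit a ^^ F.testBit b) = (F.testBit c ^^ F.testBit d) →
  (∀ x ∈ ({a, b, c, d} : Set ℕ), X.testBit (4096 + 1024 * l + x) = true ∧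
    Z.testBit (4096 + 1024 * l + x) = true ∧
    (X.testBit (1024 * l + x) ^^ Z.testBit (1024 * l + x)) = e) →
  leaf X Z = false

/-- GRP: the first three vectors of a reduced basis of a 5-dimensional subspace `H` of the space
of ten bits, and representatives without the three pivot bits. (`u1 = min (H \ {0})`,
`u2 = min (H \ {0, u1})`, `u3 = min (H \ {0, u1, u2, u1 + u2})`; `H` has at least 2, 4, 8 elements
below 64, 128, 256; pivots can be cleared by adding `u3`, `u2`, `u1`; the elements of `H` without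
the pivot bits are at least `32 / 8 = 4`.) -/
def S_GRP : Prop := ∀ H : Finset ℕ, (∀ x ∈ H, x < 1024) → 0 ∈ H →
  (∀ x ∈ H, ∀ y ∈ H, x ^^^ y ∈ H) → H.card = 32 →
  ∃ u1 ∈ H, ∃ u2 ∈ H, ∃ u3 ∈ H, 0 < u1 ∧ u1 < 64 ∧ u1 < u2 ∧ u2 < 128 ∧ u2 < u3 ∧ u3 < 256 ∧
    u2.testBit (Nat.log2 u1) = false ∧ u3.testBit (Nat.log2 u1) = false ∧
    u3.testBit (Nat.log2 u2) = false ∧
    (∀ c < 1024, ∃ h ∈ H, (c ^^^ h).testBit (Nat.log2 u1) = false ∧
      (c ^^^ h).testBit (Nat.log2 u2) = false ∧ (c ^^^ h).testBit (Nat.log2 u3) = false) ∧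
    ∃ a ∈ H, ∃ b ∈ H, a ≠ 0 ∧ b ≠ 0 ∧ a ≠ b ∧
      (∀ u ∈ ({u1, u2, u3} : Set ℕ), a.testBit (Nat.log2 u) = false ∧
        b.testBit (Nat.log2 u) = false)

/-- the number of a point of `F_2 ^ 10` -/
def enc (x : Fin 10 → ZMod 2) : ℕ := ∑ i : Fin 10, (x i).val * 2 ^ (i : ℕ)

/-- the Boolean function `f` -/
def ff (x : Fin 10 → ZMod 2) : ZMod 2 := if F.testBit (enc x) then 1 else 0

/-- LIN: a flat on which `f` is affine, in numbers -/
def S_LIN : Prop := ∀ (c a : Fin 10 → ZMod 2) (b : ZMod 2)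
  (U : Submodule (ZMod 2) (Fin 10 → ZMod 2)), Module.finrank (ZMod 2) U = 5 →
  (∀ u ∈ U, ff (c + u) = ∑ i, a i * (c + u) i + b) →
  ∃ (H : Finset ℕ) (g : ℕ → Bool) (c0 : ℕ), c0 < 1024 ∧ (∀ x ∈ H, x < 1024) ∧ 0 ∈ H ∧
    (∀ x ∈ H, ∀ y ∈ H, x ^^^ y ∈ H ∧ g (x ^^^ y) = (g x ^^ g y)) ∧ H.card = 32 ∧
    ∀ h ∈ H, ∀ u ∈ H, F.testBit (c0 ^^^ h ^^^ u) = (F.testBit (c0 ^^^ h) ^^ g u)

/-- bases of the fifteen subspaces `{(x, A x)}` (five numbers each) and of `{(0, y)}` -/
def bas : List (List ℕ) := 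
  [[1, 2, 4, 8, 16],
  [33, 66, 132, 264, 528],
  [769, 834, 324, 744, 624],
  [513, 642, 196, 296, 400],
  [865, 226, 516, 136, 720],
  [97, 386, 452, 680, 208],
  [737, 98, 292, 360, 432],
  [609, 802, 836, 968, 1008],
  [289, 962, 612, 776, 592],
  [641, 994, 164, 392, 752],
  [321, 546, 964, 936, 144],
  [481, 34, 740, 1000, 912],
  [65, 482, 580, 40, 688],
  [801, 514, 548, 872, 240],
  [193, 322, 804, 904, 48],
  [32, 64, 128, 256, 512]]

/-- PS: `f` is a partial spread function of minus type: `bas` are bases of sixteen subspaces of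
dimension 5, which pairwise intersect in `0`, and `f` is the indicator of their union without `0`.
(The subspace `E i` is e.g. the range of the linear map `F_2^5 → F_2^10` given by the five vectors.
Everything is a finite computation with `enc`.) -/
def S_PS : Prop := ∃ E : Fin 16 → Submodule (ZMod 2) (Fin 10 → ZMod 2),
  (∀ i, Module.finrank (ZMod 2) (E i) = 5) ∧ (∀ i j, i ≠ j → E i ⊓ E j = ⊥) ∧
  ∀ x, ff x = 1 ↔ x ≠ 0 ∧ ∃ i, x ∈ E i

end Pool.Agent.H41.PS
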