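import Mathlib

set_option autoImplicit false

/-! Partial spread functions of minus type are bent. -/

namespace Pool.Agent.H41.PS

/-- BENT: a partial spread function of minus type is bent. (For `y = 0` the sum is
`2 ^ (2 * k) + 2 ^ k - 2 * 2 ^ k * 2 ^ (k - 1) = 2 ^ k`; for `y ≠ 0` it is
`2 ^ k - 2 * 2 ^ k * #{i | y ⊥ E i}`, and at most one `i` has `y ⊥ E i` because
`E i + E j` is the whole space for `i ≠ j`.) -/
def S_BENT : Prop := ∀ (k : ℕ), 1 ≤ k → ∀ (f : (Fin (2 * k) → ZMod 2) → ZMod 2)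
  (E : Fin (2 ^ (k - 1)) → Submodule (ZMod 2) (Fin (2 * k) → ZMod 2)),
  (∀ i, Module.finrank (ZMod 2) (E i) = k) → (∀ i j, i ≠ j → E i ⊓ E j = ⊥) →
  (∀ x, f x = 1 ↔ x ≠ 0 ∧ ∃ i, x ∈ E i) →
  ∀ y : Fin (2 * k) → ZMod 2, |∑ x, (-1 : ℤ) ^ (f x + ∑ i, x i * y i).val| = 2 ^ k

end Pool.Agent.H41.PS
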